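import Pool.Agent.H223R3.Tree.Cliques

set_option autoImplicit false

namespace H223R3.Tree

open Finset

theorem cliqueSet_eq {V : Type*} [Fintype V] [DecidableEq V] (G : SimpleGraph V)
    [DecidableRel G.Adj] (r : ℕ) :
    {s : Finset V | G.IsNClique r s} = (cl G r univ : Set (Finset V)) := by
  ext s
  rw [Finset.mem_coe, mem_cl]
  constructor
  · intro h
    have h' : G.IsNClique r s := h
    rw [SimpleGraph.isNClique_iff] at h'
    refine ⟨⟨Finset.subset_univ _, h'.2⟩, ?_⟩
    intro x hx y hy hxy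
    exact h'.1 (by exact_mod_cast hx) (by exact_mod_cast hy) hxy
  · rintro ⟨⟨_, h1⟩, h2⟩
    show G.IsNClique r s
    rw [SimpleGraph.isNClique_iff]
    refine ⟨?_, h1⟩
    intro x hx y hy hxy
    exact h2 x (by exact_mod_cast hx) y (by exact_mod_cast hy) hxy

theorem upper {n k r : ℕ} (hk : 2 ≤ k) (T : SimpleGraph (Fin k)) (hT : T.IsTree) (hr : 1 ≤ r)
    (G : SimpleGraph (Fin n)) (hG : T.Free G) :
    (k - 1) * {s : Finset (Fin n) | G.IsNClique r s}.ncard ≤ (k - 1).choose r * n := by
  classical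
  rw [cliqueSet_eq, Set.ncard_coe_finset]
  obtain ⟨q, rfl⟩ : ∃ q, r = q + 1 := ⟨r - 1, by omega⟩
  have h := clique_bound G q k hk (Fin k) T hT (Fintype.card_fin k) univ ?_
  · rw [Finset.card_univ, Fintype.card_fin] at h
    exact h
  · rintro ⟨f, f1, _, f3⟩
    exact hG ⟨⟨⟨f, fun {a b} hab => f3 a b hab⟩, f1⟩⟩

/-- disjoint blocks of `m` consecutive numbers -/
def blocks (n m : ℕ) : SimpleGraph (Fin n) where
  Adj x y := x ≠ y ∧ x.1 / m = y.1 / m
  symm := ⟨fun x y h => ⟨h.1.symm, h.2.symm⟩⟩
  loopless := ⟨fun x h => h.1 rfl⟩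

theorem blocks_free {n k : ℕ} (hk : 2 ≤ k) (T : SimpleGraph (Fin k)) (hT : T.IsTree) :
    T.Free (blocks n (k - 1)) := by
  rintro ⟨f⟩
  have hinj : Function.Injective f := f.injective
  have hadj : ∀ a b, T.Adj a b → (blocks n (k - 1)).Adj (f a) (f b) := fun a b h =>
    f.toHom.map_adj h
  have hconst : ∀ a b, (f a).1 / (k - 1) = (f b).1 / (k - 1) := by
    intro a b
    obtain ⟨w⟩ := hT.connected.preconnected a b
    induction w with
    | nil => rfl
    | cons h _ ih => exact (hadj _ _ h).2.trans ih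
  have z : Fin k := ⟨0, by omega⟩
  have hmaps : ∀ b ∈ (univ : Finset (Fin k)), (f b).1 ∈
      Finset.Ico ((f z).1 / (k - 1) * (k - 1)) (((f z).1 / (k - 1) + 1) * (k - 1)) := by
    intro b _
    rw [Finset.mem_Ico, hconst z b]
    constructor
    · exact Nat.div_mul_le_self _ _
    · have := Nat.lt_mul_div_succ (f b).1 (show 0 < k - 1 by omega)
      calc _ < _ := this
        _ = _ := Nat.mul_comm _ _
  have hcard := Finset.card_le_card_of_injOn (fun b => (f b).1) hmaps
    (fun a _ b _ hab => hinj (Fin.ext hab))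
  rw [Finset.card_univ, Fintype.card_fin, Nat.card_Ico] at hcard
  have : ((f z).1 / (k - 1) + 1) * (k - 1) - (f z).1 / (k - 1) * (k - 1) = k - 1 := by
    rw [Nat.add_mul, one_mul]; omega
  omega

theorem blocks_count (a m r : ℕ) (hm : 1 ≤ m) (hr : 1 ≤ r) :
    a * m.choose r ≤ {s : Finset (Fin (a * m)) | (blocks (a * m) m).IsNClique r s}.ncard := by
  classical
  rw [cliqueSet_eq, Set.ncard_coe_finset]
  have hlt : ∀ (i : Fin a) (j : Fin m), i.1 * m + j.1 < a * m := by
    intro i j
    calc i.1 * m + j.1 < i.1 * m + m := by have := j.2; omega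
      _ = (i.1 + 1) * m := by ring
      _ ≤ a * m := Nat.mul_le_mul_right m i.2
  let emb : Fin a → Fin m → Fin (a * m) := fun i j => ⟨i.1 * m + j.1, hlt i j⟩
  have hdiv : ∀ i j, (emb i j).1 / m = i.1 := by
    intro i j
    show (i.1 * m + j.1) / m = i.1
    rw [mul_comm, Nat.mul_add_div (by omega), Nat.div_eq_of_lt j.2, add_zero]
  have hinj : ∀ i, Function.Injective (emb i) := by
    intro i j j' h
    have := congrArg Fin.val h
    simp only [emb] at this
    exact Fin.ext (by omega)
  have hcard : ((univ : Finset (Fin a)) ×ˢ ((univ : Finset (Fin m)).powersetCard r)).card =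
      a * m.choose r := by
    rw [Finset.card_product, Finset.card_powersetCard, Finset.card_univ, Finset.card_univ,
      Fintype.card_fin, Fintype.card_fin]
  rw [← hcard]
  apply Finset.card_le_card_of_injOn (fun p => p.2.image (emb p.1))
  · rintro ⟨i, s⟩ hp
    rw [Finset.mem_coe, Finset.mem_product, Finset.mem_powersetCard] at hp
    rw [Finset.mem_coe, mem_cl]
    refine ⟨⟨Finset.subset_univ _, ?_⟩, ?_⟩
    · rw [Finset.card_image_of_injective _ (hinj i)]
      exact hp.2.2
    · intro x hx y hy hxy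
      obtain ⟨j, _, rfl⟩ := Finset.mem_image.1 hx
      obtain ⟨j', _, rfl⟩ := Finset.mem_image.1 hy
      exact ⟨hxy, by rw [hdiv, hdiv]⟩
  · rintro ⟨i, s⟩ hp ⟨i', s'⟩ hp' h
    rw [Finset.mem_coe, Finset.mem_product, Finset.mem_powersetCard] at hp hp'
    simp only at h
    have hii : i = i' := by
      have hne : s.Nonempty := by
        rw [← Finset.card_pos, hp.2.2]; omega
      obtain ⟨j, hj⟩ := hne
      have h1 : emb i j ∈ s'.image (emb i') := by
        rw [← h]; exact Finset.mem_image_of_mem _ hj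
      obtain ⟨j', _, hj'⟩ := Finset.mem_image.1 h1
      have h2 := hdiv i j
      rw [← hj', hdiv] at h2
      exact Fin.ext h2.symm
    subst hii
    have := Finset.image_injective (hinj i) h
    rw [this]

end H223R3.Tree
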