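import Pool.Agent.H223R3.Tree.Pack

set_option autoImplicit false

namespace H223R3.Tree

open Finset

section cl

variable {V : Type*} [DecidableEq V] (G : SimpleGraph V) [DecidableRel G.Adj]

/-- the cliques with `r` vertices inside `S` -/
def cl (r : ℕ) (S : Finset V) : Finset (Finset V) :=
  (S.powersetCard r).filter (fun Q => ∀ x ∈ Q, ∀ y ∈ Q, x ≠ y → G.Adj x y)

theorem mem_cl (r : ℕ) (S Q : Finset V) :
    Q ∈ cl G r S ↔ (Q ⊆ S ∧ Q.card = r) ∧ ∀ x ∈ Q, ∀ y ∈ Q, x ≠ y → G.Adj x y := by
  rw [cl, Finset.mem_filter, Finset.mem_powersetCard]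

theorem cl_one (S : Finset V) : (cl G 1 S).card = S.card := by
  have : cl G 1 S = S.powersetCard 1 := by
    ext Q
    rw [mem_cl, Finset.mem_powersetCard]
    constructor
    · exact fun h => h.1
    · intro h
      refine ⟨h, ?_⟩
      intro x hx y hy hxy
      exact absurd (Finset.card_le_one.1 h.2.le x hx y hy) hxy
  rw [this, Finset.card_powersetCard, Nat.choose_one_right]

/-- double counting of the pairs (clique, vertex of the clique) -/
theorem cl_succ (r : ℕ) (S : Finset V) :
    (r + 1) * (cl G (r + 1) S).card ≤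
      ∑ v ∈ S, (cl G r (S.filter (fun w => G.Adj v w))).card := by
  have h1 : ∑ v ∈ S, ((cl G (r + 1) S).filter (fun Q => v ∈ Q)).card =
      (r + 1) * (cl G (r + 1) S).card := by
    simp only [Finset.card_filter]
    rw [Finset.sum_comm]
    have : ∀ Q ∈ cl G (r + 1) S, ∑ v ∈ S, (if v ∈ Q then 1 else 0) = r + 1 := by
      intro Q hQ
      rw [mem_cl] at hQ
      rw [← Finset.card_filter]
      have : S.filter (fun v => v ∈ Q) = Q := by
        ext x
        rw [Finset.mem_filter]
        exact ⟨fun h => h.2, fun h => ⟨hQ.1.1 h, h⟩⟩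
      rw [this]; exact hQ.1.2
    rw [Finset.sum_congr rfl this, Finset.sum_const, smul_eq_mul, mul_comm]
  rw [← h1]
  apply Finset.sum_le_sum
  intro v _
  apply Finset.card_le_card_of_injOn (fun Q => Q.erase v)
  · intro Q hQ
    rw [Finset.mem_coe, Finset.mem_filter, mem_cl] at hQ
    obtain ⟨⟨⟨h2, h3⟩, h4⟩, h5⟩ := hQ
    rw [Finset.mem_coe, mem_cl]
    refine ⟨⟨?_, ?_⟩, ?_⟩
    · intro x hx
      rw [Finset.mem_erase] at hx
      rw [Finset.mem_filter]
      exact ⟨h2 hx.2, h4 v h5 x hx.2 hx.1.symm⟩
    · rw [Finset.card_erase_of_mem h5]; omega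
    · intro x hx y hy hxy
      exact h4 x (Finset.mem_of_mem_erase hx) y (Finset.mem_of_mem_erase hy) hxy
  · intro Q hQ Q' hQ' h
    rw [Finset.mem_coe, Finset.mem_filter] at hQ hQ'
    have h2 := congrArg (insert v) h
    simp only at h2
    rw [Finset.insert_erase hQ.2, Finset.insert_erase hQ'.2] at h2
    exact h2

theorem cl_two_zero (r : ℕ) (S : Finset V) (h : ∀ x ∈ S, ∀ y ∈ S, ¬ G.Adj x y) :
    cl G (r + 2) S = ∅ := by
  rw [Finset.eq_empty_iff_forall_notMem]
  intro Q hQ
  rw [mem_cl] at hQ
  have h1 : 1 < Q.card := by omega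
  obtain ⟨x, hx, y, hy, hxy⟩ := Finset.one_lt_card.1 h1
  exact h x (hQ.1.1 hx) y (hQ.1.1 hy) (hQ.2 x hx y hy hxy)

/-- `T` has no copy inside `S` -/
def NoCopy {W : Type*} (T : SimpleGraph W) (S : Finset V) : Prop :=
  ¬ ∃ f : W → V, Function.Injective f ∧ (∀ w, f w ∈ S) ∧ ∀ a b, T.Adj a b → G.Adj (f a) (f b)

/-- the Erdős–Sós theorem inside `S` -/
theorem es_inside {W : Type*} [Fintype W] (T : SimpleGraph W) (hT : T.IsTree) (k : ℕ)
    (hk : 2 ≤ k) (hW : Fintype.card W = k) (S : Finset V) (h : NoCopy G T S) :
    ∑ v ∈ S, (S.filter (fun w => G.Adj v w)).card ≤ (k - 2) * S.card := by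
  classical
  by_contra hcon
  push Not at hcon
  let H : SimpleGraph {x // x ∈ S} := G.comap Subtype.val
  have hdeg : ∀ v : {x // x ∈ S}, H.degree v = (S.filter (fun w => G.Adj v.1 w)).card := by
    intro v
    rw [← SimpleGraph.card_neighborFinset_eq_degree]
    apply Finset.card_bij (fun w _ => w.1)
    · intro w hw
      rw [SimpleGraph.mem_neighborFinset] at hw
      rw [Finset.mem_filter]
      exact ⟨w.2, hw⟩
    · intro w _ w' _ h
      exact Subtype.ext h
    · intro w hw
      rw [Finset.mem_filter] at hw
      exact ⟨⟨w, hw.1⟩, by rw [SimpleGraph.mem_neighborFinset]; exact hw.2, rfl⟩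
  have hsum : ∑ v ∈ S, (S.filter (fun w => G.Adj v w)).card = 2 * H.edgeFinset.card := by
    rw [← H.sum_degrees_eq_twice_card_edges]
    rw [← Finset.sum_coe_sort S (fun v => (S.filter (fun w => G.Adj v w)).card)]
    exact Finset.sum_congr rfl (fun v _ => (hdeg v).symm)
  rw [hsum] at hcon
  have hcard : Fintype.card {x // x ∈ S} = S.card := Fintype.card_coe S
  have h1 : (k - 1 - 1) * Fintype.card {x // x ∈ S} < 2 * H.edgeFinset.card := by
    rw [hcard]
    have : k - 1 - 1 = k - 2 := by omega
    rw [this]; exact hcon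
  obtain ⟨f, hf⟩ := ES903.erdos_sos H (k - 1) h1 T hT (by omega)
  apply h
  exact ⟨fun w => (f w).1, fun a b hab => f.injective (Subtype.ext hab), fun w => (f w).2,
    fun a b hab => hf a b hab⟩

end cl

/-- removing a leaf -/
theorem remove_leaf {W : Type} [Fintype W] (T : SimpleGraph W) (hT : T.IsTree) (k : ℕ)
    (hk : 1 ≤ k) (hW : Fintype.card W = k + 1) :
    ∃ l p : W, (T.Adj l p ∧ ∀ q, T.Adj l q → q = p) ∧
      (T.induce ({l}ᶜ : Set W)).IsTree ∧ Nat.card ({l}ᶜ : Set W) = k := by
  classical
  have : Nontrivial W := Fintype.one_lt_card_iff_nontrivial.1 (by omega)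
  obtain ⟨v, hv⟩ := hT.exists_vert_degree_one_of_nontrivial
  have hconn := hT.connected.induce_compl_singleton_of_degree_eq_one hv
  have hac := hT.isAcyclic.induce ({v}ᶜ : Set W)
  obtain ⟨p, hvp, hup⟩ := SimpleGraph.degree_eq_one_iff_existsUnique_adj.mp hv
  refine ⟨v, p, ⟨hvp, fun q hq => hup q hq⟩, ⟨hconn, hac⟩, ?_⟩
  rw [Nat.card_eq_fintype_card, Fintype.card_compl_set]
  simp [hW]

/-- The upper bound for the number of cliques. -/
theorem clique_bound {V : Type*} [DecidableEq V] (G : SimpleGraph V) [DecidableRel G.Adj]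
    (r : ℕ) : ∀ (k : ℕ), 2 ≤ k → ∀ (W : Type) [Fintype W] (T : SimpleGraph W), T.IsTree →
      Fintype.card W = k → ∀ S : Finset V, NoCopy G T S →
      (k - 1) * (cl G (r + 1) S).card ≤ (k - 1).choose (r + 1) * S.card := by
  classical
  induction r with
  | zero =>
    intro k hk W _ T hT hW S _
    rw [Nat.zero_add, cl_one, Nat.choose_one_right]
  | succ r ih =>
    intro k hk W _ T hT hW S hS
    rcases Nat.lt_or_ge k 3 with h3 | h3
    · -- `k = 2`
      have hk2 : k = 2 := by omega
      subst hk2
      have hno : ∀ x ∈ S, ∀ y ∈ S, ¬ G.Adj x y := by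
        intro x hx y hy hxy
        apply hS
        obtain ⟨e⟩ : Nonempty (W ≃ Fin 2) := ⟨Fintype.equivFinOfCardEq hW⟩
        refine ⟨fun w => if e w = 0 then x else y, ?_, ?_, ?_⟩
        · intro a b hab
          apply e.injective
          simp only at hab
          by_cases ha : e a = 0
          · by_cases hb : e b = 0
            · rw [ha, hb]
            · rw [if_pos ha, if_neg hb] at hab
              exact absurd hab hxy.ne
          · by_cases hb : e b = 0
            · rw [if_neg ha, if_pos hb] at hab
              exact absurd hab.symm hxy.ne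
            · have h1 := Fin.eq_one_of_ne_zero _ ha
              have h2 := Fin.eq_one_of_ne_zero _ hb
              rw [h1, h2]
        · intro w
          simp only
          split_ifs
          · exact hx
          · exact hy
        · intro a b hab
          have hne : e a ≠ e b := fun h => hab.ne (e.injective h)
          simp only
          by_cases ha : e a = 0
          · have hb : ¬ e b = 0 := fun h => hne (by rw [ha, h])
            rw [if_pos ha, if_neg hb]; exact hxy
          · by_cases hb : e b = 0
            · rw [if_neg ha, if_pos hb]; exact hxy.symm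
            · have h1 := Fin.eq_one_of_ne_zero _ ha
              have h2 := Fin.eq_one_of_ne_zero _ hb
              exact absurd (by rw [h1, h2]) hne
      rw [show r + 1 + 1 = r + 2 from rfl, cl_two_zero G r S hno]
      simp
    · obtain ⟨m, rfl⟩ : ∃ m, k = m + 3 := ⟨k - 3, by omega⟩
      obtain ⟨l, p, ⟨hlp, hup⟩, hT', hW'⟩ := remove_leaf T hT (m + 2) (by omega) hW
      -- every neighbourhood contains no copy of the smaller tree
      have hnb : ∀ v ∈ S, (m + 1) * (cl G (r + 1) (S.filter (fun w => G.Adj v w))).card ≤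
          (m + 1).choose (r + 1) * (S.filter (fun w => G.Adj v w)).card := by
        intro v hv
        have hno : NoCopy G (T.induce ({l}ᶜ : Set W)) (S.filter (fun w => G.Adj v w)) := by
          rintro ⟨f, f1, f2, f3⟩
          apply hS
          have hf2 : ∀ w, f w ∈ S ∧ G.Adj v (f w) := fun w => Finset.mem_filter.1 (f2 w)
          refine ⟨fun w => if h : w = l then v else f ⟨w, h⟩, ?_, ?_, ?_⟩
          · intro a b hab
            simp only at hab
            by_cases ha : a = l
            · by_cases hb : b = l
              · rw [ha, hb]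
              · rw [dif_pos ha, dif_neg hb] at hab
                exact absurd hab (hf2 ⟨b, hb⟩).2.ne
            · by_cases hb : b = l
              · rw [dif_neg ha, dif_pos hb] at hab
                exact absurd hab.symm (hf2 ⟨a, ha⟩).2.ne
              · rw [dif_neg ha, dif_neg hb] at hab
                have := f1 hab
                exact congrArg Subtype.val this
          · intro w
            simp only
            split_ifs with h
            · exact hv
            · exact (hf2 ⟨w, h⟩).1
          · intro a b hab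
            simp only
            by_cases ha : a = l
            · have hb : ¬ b = l := fun h => hab.ne (by rw [ha, h])
              rw [dif_pos ha, dif_neg hb]
              exact (hf2 ⟨b, hb⟩).2
            · by_cases hb : b = l
              · rw [dif_neg ha, dif_pos hb]
                exact (hf2 ⟨a, ha⟩).2.symm
              · rw [dif_neg ha, dif_neg hb]
                exact f3 ⟨a, ha⟩ ⟨b, hb⟩ hab
        exact ih (m + 2) (by omega) _ _ hT' (by rw [← Nat.card_eq_fintype_card]; exact hW') _ hno
      have h1 := cl_succ G (r + 1) S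
      have h2 := es_inside G T hT (m + 3) (by omega) hW S hS
      have e1 : m + 3 - 2 = m + 1 := by omega
      have e2 : m + 3 - 1 = m + 2 := by omega
      rw [e1] at h2
      rw [e2]
      -- combine
      have h3 : (m + 1) * ∑ v ∈ S, (cl G (r + 1) (S.filter (fun w => G.Adj v w))).card ≤
          (m + 1).choose (r + 1) * ((m + 1) * S.card) := by
        rw [Finset.mul_sum]
        calc ∑ v ∈ S, (m + 1) * (cl G (r + 1) (S.filter (fun w => G.Adj v w))).card
            ≤ ∑ v ∈ S, (m + 1).choose (r + 1) * (S.filter (fun w => G.Adj v w)).card :=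
              Finset.sum_le_sum hnb
          _ = (m + 1).choose (r + 1) * ∑ v ∈ S, (S.filter (fun w => G.Adj v w)).card := by
              rw [Finset.mul_sum]
          _ ≤ _ := Nat.mul_le_mul_left _ h2
      have h4 : (m + 1) * ((r + 2) * (cl G (r + 2) S).card) ≤
          (m + 1) * ((m + 1).choose (r + 1) * S.card) := by
        calc (m + 1) * ((r + 2) * (cl G (r + 2) S).card)
            ≤ (m + 1) * ∑ v ∈ S, (cl G (r + 1) (S.filter (fun w => G.Adj v w))).card :=
              Nat.mul_le_mul_left _ h1
          _ ≤ (m + 1).choose (r + 1) * ((m + 1) * S.card) := h3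
          _ = _ := by ring
      have h5 := Nat.le_of_mul_le_mul_left h4 (Nat.succ_pos m)
      have h6 : (m + 2) * (m + 1).choose (r + 1) = (m + 2).choose (r + 2) * (r + 2) :=
        Nat.add_one_mul_choose_eq (m + 1) (r + 1)
      have h7 : (r + 2) * ((m + 2) * (cl G (r + 2) S).card) ≤
          (r + 2) * ((m + 2).choose (r + 2) * S.card) := by
        calc (r + 2) * ((m + 2) * (cl G (r + 2) S).card)
            = (m + 2) * ((r + 2) * (cl G (r + 2) S).card) := by ring
          _ ≤ (m + 2) * ((m + 1).choose (r + 1) * S.card) := Nat.mul_le_mul_left _ h5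
          _ = ((m + 2) * (m + 1).choose (r + 1)) * S.card := by ring
          _ = ((m + 2).choose (r + 2) * (r + 2)) * S.card := by rw [h6]
          _ = _ := by ring
      exact Nat.le_of_mul_le_mul_left h7 (by omega)

end H223R3.Tree
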