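import Pool.Agent.Helper903.ES.Main

set_option autoImplicit false

namespace H223R3.Tree

open Finset

/-- the edges used by a copy of a tree on `i` vertices -/
theorem card_used {V : Type*} [DecidableEq V] {i : ℕ} (hi : 1 ≤ i) (T : SimpleGraph (Fin i))
    (hT : T.IsTree) (f : Fin i → V) :
    ((Sym2.map f) '' T.edgeSet).ncard ≤ i - 1 := by
  classical
  have h1 : ((Sym2.map f) '' T.edgeSet).ncard ≤ T.edgeSet.ncard :=
    Set.ncard_image_le (Set.toFinite _)
  have h2 : T.edgeFinset.card + 1 = Fintype.card (Fin i) := hT.card_edgeFinset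
  have h3 : T.edgeSet.ncard = T.edgeFinset.card := by
    rw [← SimpleGraph.coe_edgeFinset, Set.ncard_coe_finset]
  rw [Fintype.card_fin] at h2
  omega

theorem ncard_deleteEdges {V : Type*} [Finite V] (G : SimpleGraph V) (R : Set (Sym2 V)) :
    G.edgeSet.ncard ≤ (G.deleteEdges R).edgeSet.ncard + R.ncard := by
  rw [SimpleGraph.edgeSet_deleteEdges]
  have h1 : G.edgeSet ⊆ (G.edgeSet \ R) ∪ R := by
    intro e he
    by_cases h : e ∈ R
    · exact Or.inr h
    · exact Or.inl ⟨he, h⟩
  exact (Set.ncard_le_ncard h1 (Set.toFinite _)).trans (Set.ncard_union_le _ _)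

theorem es_ncard {V : Type*} [Finite V] (G : SimpleGraph V) (i : ℕ) (hi : 2 ≤ i)
    (T : SimpleGraph (Fin i)) (hT : T.IsTree)
    (h : (i - 2) * Nat.card V < 2 * G.edgeSet.ncard) :
    ∃ f : Fin i → V, Function.Injective f ∧ ∀ a b, T.Adj a b → G.Adj (f a) (f b) := by
  classical
  haveI := Fintype.ofFinite V
  have h1 : (i - 1 - 1) * Fintype.card V < 2 * G.edgeFinset.card := by
    rw [← Set.ncard_coe_finset, SimpleGraph.coe_edgeFinset, ← Nat.card_eq_fintype_card]
    have : i - 1 - 1 = i - 2 := by omega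
    rw [this]; exact h
  obtain ⟨f, hf⟩ := ES903.erdos_sos G (i - 1) h1 T hT (by rw [Fintype.card_fin]; omega)
  exact ⟨f, f.injective, hf⟩

/-- Packing from the largest tree to the smallest. -/
theorem pack_aux {V : Type*} [Finite V] [Nonempty V] (k : ℕ)
    (T : (i : ℕ) → SimpleGraph (Fin i))
    (hT : ∀ i, 2 ≤ i → i ≤ k → (T i).IsTree) (G : SimpleGraph V)
    (hG : (k - 1) * Nat.card V ≤ 2 * G.edgeSet.ncard)
    (hn : ∀ m, m + 2 ≤ k → m * (2 * k - m - 1) < (m + 1) * Nat.card V) :
    ∀ m, m + 1 ≤ k → ∃ f : (i : ℕ) → Fin i → V,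
      (∀ i, k - m < i → i ≤ k → Function.Injective (f i) ∧
        ∀ a b : Fin i, (T i).Adj a b → G.Adj (f i a) (f i b)) ∧
      (∀ i j, k - m < i → i ≤ k → k - m < j → j ≤ k → i ≠ j →
        ∀ (a b : Fin i) (c d : Fin j), (T i).Adj a b → (T j).Adj c d →
          s(f i a, f i b) ≠ s(f j c, f j d)) ∧
      ∃ R : Set (Sym2 V), 2 * R.ncard ≤ m * (2 * k - m - 1) ∧
        ∀ i, k - m < i → i ≤ k → ∀ a b : Fin i, (T i).Adj a b → s(f i a, f i b) ∈ R := by
  classical
  intro m
  induction m with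
  | zero =>
    intro _
    refine ⟨fun _ _ => Classical.arbitrary V, ?_, ?_, ∅, ?_, ?_⟩
    · intro i h1 h2; omega
    · intro i j h1 h2; omega
    · simp
    · intro i h1 h2; omega
  | succ m ih =>
    intro hm
    obtain ⟨f, f1, f2, R, R1, R2⟩ := ih (by omega)
    obtain ⟨j, hj⟩ : ∃ j, j = k - m := ⟨_, rfl⟩
    have hj2 : 2 ≤ j := by omega
    have hjk : j ≤ k := by omega
    have hlt := hn m (by omega)
    have hdel := ncard_deleteEdges G R
    have hes : (j - 2) * Nat.card V < 2 * (G.deleteEdges R).edgeSet.ncard := by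
      obtain ⟨l, hl⟩ : ∃ l, j = l + 2 := ⟨j - 2, by omega⟩
      have hk : k = l + 2 + m := by omega
      have e1 : j - 2 = l := by omega
      have e2 : k - 1 = l + (m + 1) := by omega
      rw [e1]
      rw [e2, Nat.add_mul] at hG
      omega
    obtain ⟨g, g1, g2⟩ := es_ncard (G.deleteEdges R) j hj2 (T j) (hT j hj2 hjk) hes
    have hgR : ∀ a b, (T j).Adj a b → G.Adj (g a) (g b) ∧ s(g a, g b) ∉ R := by
      intro a b hab
      have := g2 a b hab
      rw [SimpleGraph.deleteEdges_adj] at this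
      exact this
    refine ⟨Function.update f j g, ?_, ?_, R ∪ (Sym2.map g) '' (T j).edgeSet, ?_, ?_⟩
    · intro i h1 h2
      by_cases hij : i = j
      · subst hij
        rw [Function.update_self]
        exact ⟨g1, fun a b hab => (hgR a b hab).1⟩
      · rw [Function.update_of_ne hij]
        exact f1 i (by omega) h2
    · intro i i' h1 h2 h3 h4 hne a b c d hab hcd
      by_cases hij : i = j
      · subst hij
        have hi'j : i' ≠ i := fun h => hne h.symm
        rw [Function.update_self, Function.update_of_ne hi'j]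
        intro h
        exact (hgR a b hab).2 (h ▸ R2 i' (by omega) h4 c d hcd)
      · by_cases hi'j : i' = j
        · subst hi'j
          rw [Function.update_self, Function.update_of_ne hij]
          intro h
          exact (hgR c d hcd).2 (h ▸ R2 i (by omega) h2 a b hab)
        · rw [Function.update_of_ne hij, Function.update_of_ne hi'j]
          exact f2 i i' (by omega) h2 (by omega) h4 hne a b c d hab hcd
    · have h1 := card_used (by omega) (T j) (hT j hj2 hjk) g
      have h2 := Set.ncard_union_le R ((Sym2.map g) '' (T j).edgeSet)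
      obtain ⟨l, hl⟩ : ∃ l, k = l + 2 + m := ⟨k - m - 2, by omega⟩
      have e1 : 2 * k - m - 1 = 2 * l + m + 3 := by omega
      have e2 : 2 * k - (m + 1) - 1 = 2 * l + m + 2 := by omega
      have e3 : j - 1 = l + 1 := by omega
      rw [e1] at R1
      rw [e2]
      rw [e3] at h1
      nlinarith
    · intro i h1 h2 a b hab
      by_cases hij : i = j
      · subst hij
        rw [Function.update_self]
        refine Or.inr ⟨s(a, b), ?_, rfl⟩
        exact hab
      · rw [Function.update_of_ne hij]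
        exact Or.inl (R2 i (by omega) h2 a b hab)

theorem ineq (k n : ℕ) (h : 2 * (k : ℝ) + 1 - Real.sqrt (8 * k) < n) (m : ℕ)
    (hm : m + 2 ≤ k) : m * (2 * k - m - 1) < (m + 1) * n := by
  obtain ⟨l, hl⟩ : ∃ l, k = l + 2 + m := ⟨k - m - 2, by omega⟩
  have e1 : 2 * k - m - 1 = 2 * l + m + 3 := by omega
  rw [e1]
  have h8 : (0 : ℝ) ≤ 8 * k := by positivity
  have hs := Real.sqrt_nonneg (8 * (k : ℝ))
  have hsq := Real.sq_sqrt h8
  have hkr : (k : ℝ) = l + 2 + m := by exact_mod_cast hl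
  have key : (m : ℝ) * (2 * l + m + 3) < (m + 1) * n := by
    have hc : 2 * (k : ℝ) + 1 - n < Real.sqrt (8 * k) := by linarith
    have h2 : ((m : ℝ) + 1) * (2 * k + 1 - n) < ((m : ℝ) + 1) * Real.sqrt (8 * k) := by
      apply mul_lt_mul_of_pos_left hc; positivity
    have h3 : ((m : ℝ) + 1) * Real.sqrt (8 * k) ≤ (m + 1) ^ 2 + 2 * k := by
      nlinarith [sq_nonneg (2 * ((m : ℝ) + 1) - Real.sqrt (8 * k))]
    nlinarith
  exact_mod_cast key

/-- Packing of `T_2, ..., T_k` into a graph of average degree at least `k - 1` on more than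
`2 k + 1 - √(8 k)` vertices. -/
theorem pack {V : Type*} [Finite V] [Nonempty V] (k : ℕ) (hk : 2 ≤ k)
    (T : (i : ℕ) → SimpleGraph (Fin i))
    (hT : ∀ i, 2 ≤ i → i ≤ k → (T i).IsTree) (G : SimpleGraph V)
    (hG : (k - 1) * Nat.card V ≤ 2 * G.edgeSet.ncard)
    (hn : 2 * (k : ℝ) + 1 - Real.sqrt (8 * k) < Nat.card V) :
    ∃ f : (i : ℕ) → Fin i → V,
      (∀ i, 2 ≤ i → i ≤ k → Function.Injective (f i) ∧
        ∀ a b : Fin i, (T i).Adj a b → G.Adj (f i a) (f i b)) ∧
      (∀ i j, 2 ≤ i → i ≤ k → 2 ≤ j → j ≤ k → i ≠ j →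
        ∀ (a b : Fin i) (c d : Fin j), (T i).Adj a b → (T j).Adj c d →
          s(f i a, f i b) ≠ s(f j c, f j d)) := by
  obtain ⟨f, f1, f2, -⟩ := pack_aux k T hT G hG (fun m hm => ineq k _ hn m hm) (k - 1) (by omega)
  have e : k - (k - 1) = 1 := by omega
  rw [e] at f1 f2
  exact ⟨f, fun i h1 h2 => f1 i (by omega) h2,
    fun i j h1 h2 h3 h4 => f2 i j (by omega) h2 (by omega) h4⟩

theorem min_degree_edges {V : Type*} [Finite V] (k : ℕ) (G : SimpleGraph V)
    (h : ∀ v : V, k - 1 ≤ (G.neighborSet v).ncard) :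
    (k - 1) * Nat.card V ≤ 2 * G.edgeSet.ncard := by
  classical
  haveI := Fintype.ofFinite V
  have h1 := G.sum_degrees_eq_twice_card_edges
  have h2 : G.edgeSet.ncard = G.edgeFinset.card := by
    rw [← SimpleGraph.coe_edgeFinset, Set.ncard_coe_finset]
  rw [h2, ← h1, Nat.card_eq_fintype_card, mul_comm]
  have h3 : ∀ v ∈ (univ : Finset V), k - 1 ≤ G.degree v := by
    intro v _
    have := h v
    rw [← G.coe_neighborFinset, Set.ncard_coe_finset] at this
    exact this
  have := Finset.card_nsmul_le_sum _ _ _ h3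
  simpa using this

end H223R3.Tree
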